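import Pool.Agent.U36.SD.Stm

set_option autoImplicit false
set_option linter.unusedSectionVars false

/-!
Project SD, package BC: base change of sections.
-/

open NumberField Polynomial IsDedekindDomain Pool.Agent.W401.Cheb

namespace Pool.Agent.U83.SD.BC

open Pool.Agent.TH954 Pool.Agent.U36.SD

lemma exists_finset_of_nhds {F M : Type} [Field F] [Field M] [Algebra F M]
    {U : Set (M ≃ₐ[F] M)} (hU : U ∈ nhds (1 : M ≃ₐ[F] M)) :
    ∃ T : Finset M, ∀ g : M ≃ₐ[F] M, (∀ t ∈ T, g t = t) → g ∈ U := by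
  classical
  rw [krullTopology_mem_nhds_one_iff] at hU
  obtain ⟨E, hE, h⟩ := hU
  let b := Module.finBasis F E
  refine ⟨Finset.univ.image (fun i => (b i : M)), fun g hg => h ?_⟩
  rw [SetLike.mem_coe, IntermediateField.mem_fixingSubgroup_iff]
  intro z hz
  have key : ((g : M →ₐ[F] M).toLinearMap.comp E.val.toLinearMap) = E.val.toLinearMap := by
    apply b.ext
    intro i
    exact hg _ (Finset.mem_image_of_mem _ (Finset.mem_univ i))
  exact LinearMap.congr_fun key ⟨z, hz⟩

lemma cont_of_fix {G F M : Type} [Group G] [TopologicalSpace G] [IsTopologicalGroup G]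
    [Field F] [Field M] [Algebra F M] (f : G →* (M ≃ₐ[F] M))
    (h : ∀ x : M, {g : G | f g x = x} ∈ nhds (1 : G)) : Continuous f := by
  apply continuous_of_continuousAt_one f
  intro U hU
  rw [map_one] at hU
  obtain ⟨T, hT⟩ := exists_finset_of_nhds hU
  have h1 : (⋂ t ∈ T, {g : G | f g t = t}) ∈ nhds (1 : G) :=
    (Filter.biInter_finset_mem T).2 fun t _ => h t
  rw [Filter.mem_map]
  filter_upwards [h1] with g hg
  exact hT _ fun t ht => Set.mem_iInter₂.1 hg t ht

lemma exists_g0 {K B C : Type} [Field K] [Field B] [Field C] [Algebra K B] [Normal K B]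
    (ψ ε : B →+* C) (h : ∀ c : K, ψ (algebraMap K B c) = ε (algebraMap K B c)) :
    ∃ g0 : B ≃ₐ[K] B, ∀ x, ψ (g0 x) = ε x := by
  let : Algebra B C := ψ.toAlgebra
  let : Algebra K C := (ψ.comp (algebraMap K B)).toAlgebra
  have : IsScalarTower K B C := IsScalarTower.of_algebraMap_eq fun x => rfl
  let e : B →ₐ[K] C := { ε with commutes' := fun c => (h c).symm }
  exact ⟨AlgHom.restrictNormal' e B, fun x => AlgHom.restrictNormal_commutes e B x⟩

theorem t_BC (hEXT : S_EXT) : S_BC := by
  intro K F M B _ _ _ _ _ _ _ _ _ _ _ _ s L F' _ _ _ _ _ _ _ _ _ _ _ _ _ h1 h2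
  have : Algebra.IsAlgebraic K B := IsAlgClosure.isAlgebraic
  have : IsAlgClosed B := IsAlgClosure.isAlgClosed K
  have : Normal K B := IsAlgClosure.normal K B
  have : Algebra.IsAlgebraic L B := Algebra.IsAlgebraic.tower_top (K := K) L
  have hfixM : ∀ x : M, {g : B ≃ₐ[K] B | s.s g x = x} ∈ nhds (1 : B ≃ₐ[K] B) := by
    intro x
    have h3 := s.cont.continuousAt (x := 1)
    have h4 : {g : M ≃ₐ[F] M | g x = x} ∈ nhds (s.s 1) := by
      rw [map_one]
      exact fix_nhds x
    exact h3 h4
  have hres : Continuous (resScal K L B) := by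
    apply cont_of_fix
    intro x
    exact fix_nhds (F := L) x
  let S' : (B ≃ₐ[L] B) →* (M ≃ₐ[F'] M) :=
    { toFun := fun g => { s.s (g.restrictScalars K) with commutes' := fun y => h2 g y }
      map_one' := by
        ext x
        change s.s (resScal K L B 1) x = x
        rw [map_one, map_one]; rfl
      map_mul' := by
        intro g g'
        ext x
        change s.s (resScal K L B (g * g')) x =
          s.s (resScal K L B g) (s.s (resScal K L B g') x)
        rw [map_mul, map_mul]; rfl }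
  have hS' : ∀ (g : B ≃ₐ[L] B) (x : M), S' g x = s.s (g.restrictScalars K) x := fun _ _ => rfl
  have hcont : Continuous S' := by
    apply cont_of_fix
    intro x
    have h3 := hres.continuousAt (x := 1)
    have h4 : {g : B ≃ₐ[K] B | s.s g x = x} ∈ nhds (resScal K L B 1) := by
      rw [map_one]
      exact hfixM x
    exact h3 h4
  let s' : GalSection L F' M B :=
    { j := { s.j with commutes' := fun x => (h1 x).symm }
      s := S'
      cont := hcont
      sec := fun g x => s.sec (g.restrictScalars K) x }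
  have hj' : ∀ z, s'.j z = s.j z := fun _ => rfl
  refine ⟨s', fun g x => rfl, fun p hp w => ?_⟩
  obtain ⟨φ, hφ⟩ := hEXT K L w
  set pv := p (w.under (𝓞 K)) with hpv
  let iot := pv.iot s.j
  let ε : B →ₐ[L] AlgebraicClosure (w.adicCompletion L) := IsAlgClosed.lift
  have hag : ∀ c : K, (φ.toRingHom.comp iot.toRingHom) (algebraMap K B c) =
      ε.toRingHom (algebraMap K B c) := by
    intro c
    change φ (iot (algebraMap K B c)) = ε (algebraMap K B c)
    rw [iot.commutes, IsScalarTower.algebraMap_apply K L B, ε.commutes,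
      IsScalarTower.algebraMap_apply K ((w.under (𝓞 K)).adicCompletion K), hφ,
      Pool.Agent.U36.HV.phi_alg,
      ← IsScalarTower.algebraMap_apply L (w.adicCompletion L)]
  obtain ⟨g0, hg0⟩ := exists_g0 _ _ hag
  have hg0' : ∀ x, φ (iot (g0 x)) = ε x := hg0
  have hiot : ∀ z c, pv.val (s.j z) c ↔ iot z = c := by
    intro z c
    constructor
    · rintro ⟨h, e⟩; rw [← e]; rfl
    · intro e; obtain ⟨h, e'⟩ := pv.iot_spec s.j z; exact ⟨h, e'.trans e⟩
  -- the place
  let q : Plc L M (AlgebraicClosure (w.adicCompletion L)) :=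
    { W := pv.W.comap (s.s g0 : M →+* M)
      ρ := φ.toRingHom.comp (pv.ρ.comp
        (((s.s g0 : M →+* M).comp (pv.W.comap (s.s g0 : M →+* M)).subtype).codRestrict pv.W
          (fun x => x.2)))
      loc := by
        intro x hx
        have h3 : pv.ρ ⟨s.s g0 x, x.2⟩ ≠ 0 := by
          intro h0
          apply hx
          change φ (pv.ρ ⟨s.s g0 x, x.2⟩) = 0
          rw [h0, map_zero]
        have h4 := pv.loc _ h3
        change s.s g0 (x : M)⁻¹ ∈ pv.W
        rw [map_inv₀]
        exact h4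
      comm := by
        intro c
        obtain ⟨h, e⟩ := pv.iot_spec s.j (g0 (algebraMap L B c))
        have h5 : s.s g0 (algebraMap L M c) = s.j (g0 (algebraMap L B c)) := by
          rw [h1, s.sec]
        have h6 : s.s g0 (algebraMap L M c) ∈ pv.W := by rw [h5]; exact h
        refine ⟨h6, ?_⟩
        change φ (pv.ρ ⟨s.s g0 (algebraMap L M c), h6⟩) = _
        have h7 : pv.ρ ⟨s.s g0 (algebraMap L M c), h6⟩ = iot (g0 (algebraMap L B c)) := by
          rw [← e]
          congr 1
          exact Subtype.ext h5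
        rw [h7, hg0', ε.commutes] }
  have hq : ∀ x c, q.val x c ↔ pv.val (s.s g0 x) (φ.symm c) := by
    intro x c
    constructor
    · rintro ⟨h, e⟩
      refine ⟨h, ?_⟩
      rw [← e]
      change _ = φ.symm (φ (pv.ρ ⟨s.s g0 x, h⟩))
      rw [RingEquiv.symm_apply_apply]
    · rintro ⟨h, e⟩
      refine ⟨h, ?_⟩
      change φ (pv.ρ ⟨s.s g0 x, h⟩) = c
      rw [e, RingEquiv.apply_symm_apply]
  have hinv : ∀ a : M, s.s g0 (s.s g0⁻¹ a) = a := by
    intro a
    have : (s.s g0 * s.s g0⁻¹) a = a := by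
      rw [← map_mul, mul_inv_cancel, map_one]; rfl
    exact this
  refine ⟨q, g0⁻¹, φ, ?_, hφ, ?_, ?_⟩
  · intro σ g' H x c hx
    -- the automorphism of the algebraic closure of `K_v`
    let σ' : AlgebraicClosure ((w.under (𝓞 K)).adicCompletion K)
        ≃ₐ[(w.under (𝓞 K)).adicCompletion K]
        AlgebraicClosure ((w.under (𝓞 K)).adicCompletion K) :=
      { (φ.trans (σ : _ ≃+* _)).trans φ.symm with
        commutes' := by
          intro x
          change φ.symm (σ (φ (algebraMap _ _ x))) = _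
          rw [hφ, σ.commutes, ← hφ, RingEquiv.symm_apply_apply] }
    have hσ' : ∀ y, σ' y = φ.symm (σ (φ y)) := fun _ => rfl
    let gt : B ≃ₐ[K] B := g0 * g'.restrictScalars K * g0⁻¹
    have hgt : ∀ y, gt y = g0 (g' (g0⁻¹ y)) := fun _ => rfl
    have hg0i : ∀ y, g0 (g0⁻¹ y) = y := fun y => by
      have : (g0 * g0⁻¹) y = y := by rw [mul_inv_cancel]; rfl
      exact this
    have hH : ∀ z : B, ε (g' z) = σ (ε z) := by
      intro z
      have h3 : q.val (s'.j z) (ε z) := by
        rw [hq, hj', s.sec, hiot, ← hg0', RingEquiv.symm_apply_apply]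
      have h4 := H z _ h3
      rw [hq, hj', s.sec, hiot] at h4
      rw [← hg0' (g' z), h4, RingEquiv.apply_symm_apply]
    have h5 : ∀ z c, pv.val (s.j z) c → pv.val (s.j (gt z)) (σ' c) := by
      intro z c hz
      rw [hiot] at hz ⊢
      rw [hσ', ← hz, hgt]
      apply φ.injective
      rw [RingEquiv.apply_symm_apply, hg0', hH]
      congr 1
      rw [← hg0' (g0⁻¹ z), hg0i]
    have h6 := hp (w.under (𝓞 K)) σ' gt h5 (s.s g0 x) (φ.symm c) ((hq x c).1 hx)
    rw [hq]
    have h7 : s.s gt (s.s g0 x) = s.s g0 (s'.s g' x) := by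
      change (s.s gt * s.s g0) x = (s.s g0 * s.s (g'.restrictScalars K)) x
      rw [← map_mul, ← map_mul]
      congr 2
      change g0 * g'.restrictScalars K * g0⁻¹ * g0 = g0 * g'.restrictScalars K
      group
    rw [← h7]
    rw [hσ', RingEquiv.apply_symm_apply] at h6
    exact h6
  · intro a
    change a ∈ pv.W ↔ s.s g0 (s.s g0⁻¹ a) ∈ pv.W
    rw [hinv]
  · intro a c hac
    rw [hq, hinv, RingEquiv.symm_apply_apply]
    exact hac

end Pool.Agent.U83.SD.BC
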